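import Mathlib

open MvPolynomial

namespace Pool.Agent.H233Z.Terao

noncomputable section

variable {K : Type} [Field K]

/-- polynomial ring in three variables -/
abbrev SS (K : Type) [Field K] := MvPolynomial (Fin 3) K

/-- the pairing of a constant covector with a polynomial vector field -/
def app (a : Fin 3 → K) (θ : Fin 3 → SS K) : SS K := C (a 0) * θ 0 + C (a 1) * θ 1 + C (a 2) * θ 2

/-- the linear form with coefficient vector `a` -/
def lin (a : Fin 3 → K) : SS K := app a X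

/-- determinant of three vectors -/
def d3 {R : Type} [CommRing R] (u v w : Fin 3 → R) : R :=
  u 0 * (v 1 * w 2 - v 2 * w 1) + u 1 * (v 2 * w 0 - v 0 * w 2) + u 2 * (v 0 * w 1 - v 1 * w 0)

/-- cross product -/
def cr {R : Type} [CommRing R] (a b : Fin 3 → R) : Fin 3 → R :=
  ![a 1 * b 2 - a 2 * b 1, a 2 * b 0 - a 0 * b 2, a 0 * b 1 - a 1 * b 0]

/-- dot product -/
def dt {R : Type} [CommRing R] (a x : Fin 3 → R) : R := a 0 * x 0 + a 1 * x 1 + a 2 * x 2

lemma eval_lin (a x : Fin 3 → K) : eval x (lin a) = dt a x := by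
  simp [lin, app, dt]

lemma lin_hom (a : Fin 3 → K) : (lin a).IsHomogeneous 1 :=
  ((isHomogeneous_C_mul_X _ _).add (isHomogeneous_C_mul_X _ _)).add (isHomogeneous_C_mul_X _ _)

lemma lin_ne_zero {a : Fin 3 → K} (ha : a ≠ 0) : lin a ≠ 0 := by
  intro h
  apply ha
  funext k
  have := eval_lin a (Pi.single k 1)
  rw [h, map_zero] at this
  fin_cases k <;> simpa [dt] using this.symm

lemma lin_prime {a : Fin 3 → K} (ha : a ≠ 0) : Prime (lin a) := by
  apply Irreducible.prime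
  apply irreducible_of_totalDegree_eq_one ((lin_hom a).totalDegree (lin_ne_zero ha))
  intro x hx
  rw [isUnit_iff_ne_zero]
  rintro rfl
  apply lin_ne_zero ha
  ext i
  simpa using hx i

lemma not_dvd_of_eval {f g : SS K} (x : Fin 3 → K) (hf : eval x f = 0) (hg : eval x g ≠ 0) :
    ¬ f ∣ g := by
  rintro ⟨h, rfl⟩
  apply hg
  rw [map_mul, hf, zero_mul]

lemma lin_not_dvd {a b : Fin 3 → K} (h : ∃ k, cr a b k ≠ 0) : ¬ lin a ∣ lin b := by
  obtain ⟨k, hk⟩ := h
  apply not_dvd_of_eval (cr a (Pi.single k 1))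
  · rw [eval_lin]; simp only [dt, cr, Matrix.cons_val]; ring
  · rw [eval_lin]
    intro h0
    apply hk
    rw [← neg_eq_zero, ← h0]
    fin_cases k <;> simp [dt, cr] <;> ring

section Arr

variable {ι : Type} [Fintype ι]

/-- the rows are nonzero and pairwise non-proportional -/
def Good (A : ι → Fin 3 → K) : Prop := (∀ i, A i ≠ 0) ∧ ∀ i j, i ≠ j → ∃ k, cr (A i) (A j) k ≠ 0

/-- the defining polynomial -/
def QQ (A : ι → Fin 3 → K) : SS K := ∏ i, lin (A i)

lemma QQ_hom (A : ι → Fin 3 → K) : (QQ A).IsHomogeneous (Fintype.card ι) := by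
  have h := IsHomogeneous.prod Finset.univ (fun i => lin (A i)) (fun _ => 1)
    (fun i _ => lin_hom (A i))
  simpa [QQ] using h

lemma QQ_ne_zero {A : ι → Fin 3 → K} (hA : Good A) : QQ A ≠ 0 :=
  Finset.prod_ne_zero_iff.2 fun i _ => lin_ne_zero (hA.1 i)

lemma QQ_dvd {A : ι → Fin 3 → K} (hA : Good A) {F : SS K} (h : ∀ i, lin (A i) ∣ F) :
    QQ A ∣ F := by
  apply Finset.prod_dvd_of_isRelPrime
  · intro i _ j _ hij
    exact (lin_prime (hA.1 i)).irreducible.isRelPrime_iff_not_dvd.2 (lin_not_dvd (hA.2 i j hij))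
  · exact fun i _ => h i

/-- logarithmic vector fields -/
def IsLog (A : ι → Fin 3 → K) (θ : Fin 3 → SS K) : Prop := ∀ i, lin (A i) ∣ app (A i) θ

lemma lin_dvd_d3 {a : Fin 3 → K} (ha : a ≠ 0) {u v w : Fin 3 → SS K} (hu : lin a ∣ app a u)
    (hv : lin a ∣ app a v) (hw : lin a ∣ app a w) : lin a ∣ d3 u v w := by
  obtain ⟨k, hk⟩ := Function.ne_iff.1 ha
  have h1 : C (a k) * d3 u v w = app a u * cr v w k + app a v * cr w u k + app a w * cr u v k := by
    fin_cases k <;> simp [app, d3, cr] <;> ring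
  have h2 : lin a ∣ C (a k) * d3 u v w := by
    rw [h1]
    exact ((hu.mul_right _).add (hv.mul_right _)).add (hw.mul_right _)
  exact (IsUnit.dvd_mul_left (IsUnit.map C (isUnit_iff_ne_zero.2 hk))).1 h2

lemma QQ_dvd_d3 {A : ι → Fin 3 → K} (hA : Good A) {u v w : Fin 3 → SS K} (hu : IsLog A u)
    (hv : IsLog A v) (hw : IsLog A w) : QQ A ∣ d3 u v w :=
  QQ_dvd hA fun i => lin_dvd_d3 (hA.1 i) (hu i) (hv i) (hw i)

lemma eq_C_mul_of_dvd {Q F : SS K} {n m : ℕ} (hQ : Q.IsHomogeneous n) (hQ0 : Q ≠ 0)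
    (hF : F.IsHomogeneous m) (hm : m ≤ n) (h : Q ∣ F) : ∃ c : K, F = C c * Q := by
  obtain ⟨g, rfl⟩ := h
  by_cases hg : g = 0
  · exact ⟨0, by simp [hg]⟩
  have h1 := totalDegree_mul_of_isDomain hQ0 hg
  have h2 := hF.totalDegree_le
  rw [hQ.totalDegree hQ0] at h1
  have h3 : g.totalDegree = 0 := by omega
  rw [totalDegree_eq_zero_iff_eq_C] at h3
  exact ⟨coeff 0 g, by rw [← h3]; ring⟩

lemma d3_hom {u v w : Fin 3 → SS K} {a b c : ℕ} (hu : ∀ j, (u j).IsHomogeneous a)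
    (hv : ∀ j, (v j).IsHomogeneous b) (hw : ∀ j, (w j).IsHomogeneous c) :
    (d3 u v w).IsHomogeneous (a + (b + c)) :=
  (((hu 0).mul (((hv 1).mul (hw 2)).sub ((hv 2).mul (hw 1)))).add
    ((hu 1).mul (((hv 2).mul (hw 0)).sub ((hv 0).mul (hw 2))))).add
    ((hu 2).mul (((hv 0).mul (hw 1)).sub ((hv 1).mul (hw 0))))

/-- Saito's criterion, sufficiency -/
theorem free_of_saito {A : ι → Fin 3 → K} (hA : Good A) (D : Submodule (SS K) (Fin 3 → SS K))
    (hD : ∀ θ, θ ∈ D ↔ IsLog A θ) {u v w : Fin 3 → SS K} (hu : IsLog A u) (hv : IsLog A v)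
    (hw : IsLog A w) {m : ℕ} (hm : m ≤ Fintype.card ι) (hh : (d3 u v w).IsHomogeneous m)
    (h0 : d3 u v w ≠ 0) : Module.Free (SS K) D := by
  obtain ⟨c, hc⟩ := eq_C_mul_of_dvd (QQ_hom A) (QQ_ne_zero hA) hh hm (QQ_dvd_d3 hA hu hv hw)
  have hc0 : c ≠ 0 := by
    rintro rfl
    simp [h0] at hc
  let b : Fin 3 → D := ![⟨u, (hD u).2 hu⟩, ⟨v, (hD v).2 hv⟩, ⟨w, (hD w).2 hw⟩]
  have hli : LinearIndependent (SS K) b := by
    rw [Fintype.linearIndependent_iff]
    intro g hg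
    have h1 : ∀ j, g 0 * u j + g 1 * v j + g 2 * w j = 0 := by
      intro j
      have := congrArg (fun x : D => (x : Fin 3 → SS K) j) hg
      simpa [b, Fin.sum_univ_three] using this
    intro i
    apply mul_right_cancel₀ h0
    fin_cases i
    · simp only [d3, Fin.zero_eta, zero_mul]
      linear_combination (v 1 * w 2 - v 2 * w 1) * h1 0 + (v 2 * w 0 - v 0 * w 2) * h1 1 +
        (v 0 * w 1 - v 1 * w 0) * h1 2
    · simp only [d3, Fin.mk_one, zero_mul]
      linear_combination (w 1 * u 2 - w 2 * u 1) * h1 0 + (w 2 * u 0 - w 0 * u 2) * h1 1 +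
        (w 0 * u 1 - w 1 * u 0) * h1 2
    · simp only [d3, Fin.reduceFinMk, zero_mul]
      linear_combination (u 1 * v 2 - u 2 * v 1) * h1 0 + (u 2 * v 0 - u 0 * v 2) * h1 1 +
        (u 0 * v 1 - u 1 * v 0) * h1 2
  have hsp : ⊤ ≤ Submodule.span (SS K) (Set.range b) := by
    rintro ⟨η, hη⟩ -
    have hη' := (hD η).1 hη
    obtain ⟨g0, e0⟩ := QQ_dvd_d3 hA hη' hv hw
    obtain ⟨g1, e1⟩ := QQ_dvd_d3 hA hu hη' hw
    obtain ⟨g2, e2⟩ := QQ_dvd_d3 hA hu hv hη'
    rw [Submodule.mem_span_range_iff_exists_fun]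
    refine ⟨![C c⁻¹ * g0, C c⁻¹ * g1, C c⁻¹ * g2], ?_⟩
    apply Subtype.ext
    funext j
    have hcc : (C c⁻¹ : SS K) * C c = 1 := by rw [← map_mul, inv_mul_cancel₀ hc0, map_one]
    have h2 : d3 u v w * η j = d3 η v w * u j + d3 u η w * v j + d3 u v η * w j := by
      fin_cases j <;> simp [d3] <;> ring
    rw [hc, e0, e1, e2] at h2
    have h3 : C c * η j = g0 * u j + g1 * v j + g2 * w j := by
      apply mul_left_cancel₀ (QQ_ne_zero hA)
      linear_combination h2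
    simp only [b, Fin.sum_univ_three, Matrix.cons_val, Submodule.coe_add, Submodule.coe_smul,
      Pi.add_apply, Pi.smul_apply, smul_eq_mul]
    linear_combination (-C c⁻¹ : SS K) * h3 + η j * hcc
  exact Module.Free.of_basis (Module.Basis.mk hli hsp)

/-- a free module of logarithmic fields has a triple with determinant `c * Q` -/
theorem saito_of_free [DecidableEq ι] [Nonempty ι] {A : ι → Fin 3 → K} (hA : Good A)
    (D : Submodule (SS K) (Fin 3 → SS K)) (hD : ∀ θ, θ ∈ D ↔ IsLog A θ)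
    [Module.Free (SS K) D] :
    ∃ u v w : Fin 3 → SS K, IsLog A u ∧ IsLog A v ∧ IsLog A w ∧
      ∃ c : K, c ≠ 0 ∧ d3 u v w = C c * QQ A := by
  have hQ0 := QQ_ne_zero hA
  have hQmem : ∀ η : Fin 3 → SS K, IsLog A (fun j => QQ A * η j) := by
    intro η i
    have h1 : app (A i) (fun j => QQ A * η j) = QQ A * app (A i) η := by simp only [app]; ring
    rw [h1]
    exact (Finset.dvd_prod_of_mem _ (Finset.mem_univ i)).mul_right _
  have hfr : Module.finrank (SS K) D = 3 := by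
    apply le_antisymm
    · have := Submodule.finrank_le D
      simpa using this
    · let e : Fin 3 → D := fun k => ⟨fun j => QQ A * (Pi.single k 1 : Fin 3 → SS K) j,
        (hD _).2 (hQmem _)⟩
      have hli : LinearIndependent (SS K) e := by
        rw [Fintype.linearIndependent_iff]
        intro g hg i
        have := congrArg (fun x : D => (x : Fin 3 → SS K) i) hg
        fin_cases i <;> simpa [e, Fin.sum_univ_three, hQ0] using this
      simpa using hli.fintype_card_le_finrank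
  let b := Module.finBasisOfFinrankEq (SS K) D hfr
  have hb : ∀ k, IsLog A (b k : Fin 3 → SS K) := fun k => (hD _).1 (b k).2
  have hrep : ∀ η, IsLog A η → ∃ r : Fin 3 → SS K, ∀ j,
      η j = r 0 * (b 0 : Fin 3 → SS K) j + r 1 * (b 1 : Fin 3 → SS K) j +
        r 2 * (b 2 : Fin 3 → SS K) j := by
    intro η hη
    refine ⟨fun k => b.repr ⟨η, (hD η).2 hη⟩ k, fun j => ?_⟩
    have := congrArg (fun x : D => (x : Fin 3 → SS K) j) (b.sum_repr ⟨η, (hD η).2 hη⟩)
    simp only [Fin.sum_univ_three, Submodule.coe_add, Submodule.coe_smul, Pi.add_apply,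
      Pi.smul_apply, smul_eq_mul] at this
    exact this.symm
  have hdvd : ∀ u v w, IsLog A u → IsLog A v → IsLog A w →
      d3 (b 0 : Fin 3 → SS K) (b 1) (b 2) ∣ d3 u v w := by
    intro u v w hu hv hw
    obtain ⟨r, hr⟩ := hrep u hu
    obtain ⟨s, hs⟩ := hrep v hv
    obtain ⟨t, ht⟩ := hrep w hw
    refine ⟨d3 r s t, ?_⟩
    simp only [d3, hr, hs, ht]
    ring
  obtain ⟨g, hg⟩ := QQ_dvd_d3 hA (hb 0) (hb 1) (hb 2)
  have hgd : ∀ i, g ∣ (∏ j ∈ Finset.univ.erase i, lin (A j)) ^ 2 := by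
    intro i
    set Qi := ∏ j ∈ Finset.univ.erase i, lin (A j) with hQi
    obtain ⟨k, hk⟩ := Function.ne_iff.1 (hA.1 i)
    have hmem : ∀ e : Fin 3 → K, IsLog A (fun j => Qi * C (cr (A i) e j)) := by
      intro e i'
      have h1 : app (A i') (fun j => Qi * C (cr (A i) e j)) = Qi * C (dt (A i') (cr (A i) e)) := by
        simp only [app, dt, map_add, map_mul]; ring
      rw [h1]
      by_cases h : i' = i
      · have h2 : dt (A i') (cr (A i) e) = 0 := by
          rw [h]; simp only [dt, cr, Matrix.cons_val]; ring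
        rw [h2]; simp
      · exact (Finset.dvd_prod_of_mem _ (Finset.mem_erase.2 ⟨h, Finset.mem_univ _⟩)).mul_right _
    have h3 := hdvd _ _ _ (hmem (Pi.single (k + 1) 1)) (hmem (Pi.single (k + 2) 1))
      (hQmem (Pi.single k 1))
    have h4 : d3 (fun j => Qi * C (cr (A i) (Pi.single (k + 1) 1) j))
        (fun j => Qi * C (cr (A i) (Pi.single (k + 2) 1) j))
        (fun j => QQ A * (Pi.single k 1 : Fin 3 → SS K) j) = QQ A * (C (A i k ^ 2) * Qi ^ 2) := by
      fin_cases k <;> simp [d3, cr] <;> ring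
    rw [h4, hg] at h3
    have h5 := (mul_dvd_mul_iff_left hQ0).1 h3
    exact (IsUnit.dvd_mul_left (IsUnit.map C (isUnit_iff_ne_zero.2 (pow_ne_zero 2 hk)))).1 h5
  have hQi0 : ∀ i, (∏ j ∈ Finset.univ.erase i, lin (A j)) ^ 2 ≠ 0 := fun i =>
    pow_ne_zero 2 (Finset.prod_ne_zero_iff.2 fun j _ => lin_ne_zero (hA.1 j))
  have hunit : IsUnit g := by
    by_contra hnu
    obtain ⟨i0⟩ := (inferInstance : Nonempty ι)
    have hg0 : g ≠ 0 := ne_zero_of_dvd_ne_zero (hQi0 i0) (hgd i0)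
    obtain ⟨π, hπ, hπg⟩ := WfDvdMonoid.exists_irreducible_factor hnu hg0
    have hp := hπ.prime
    obtain ⟨j, -, hj⟩ := (hp.dvd_finsetProd_iff _).1 (hp.dvd_of_dvd_pow (hπg.trans (hgd i0)))
    have hass : Associated π (lin (A j)) := hπ.associated_of_dvd (lin_prime (hA.1 j)).irreducible hj
    have h6 : lin (A j) ∣ (∏ k ∈ Finset.univ.erase j, lin (A k)) ^ 2 :=
      hass.symm.dvd.trans (hπg.trans (hgd j))
    obtain ⟨k, hk, hjk⟩ := ((lin_prime (hA.1 j)).dvd_finsetProd_iff _).1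
      ((lin_prime (hA.1 j)).dvd_of_dvd_pow h6)
    exact lin_not_dvd (hA.2 j k (Finset.mem_erase.1 hk).1.symm) hjk
  obtain ⟨c, hc, rfl⟩ := isUnit_iff_eq_C_of_isReduced.1 hunit
  exact ⟨_, _, _, hb 0, hb 1, hb 2, c, hc.ne_zero, by rw [hg]; ring⟩

end Arr

end

end Pool.Agent.H233Z.Terao
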