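import Mathlib
import Pool.Agent.H233Z.Terao.Basic

namespace Pool.Agent.H233Z.Terao

noncomputable section

variable {K : Type} [Field K] {n : ℕ}

/-- the plane of the `i`-th row -/
def plane (A : Matrix (Fin n) (Fin 3) K) (i : Fin n) : Submodule K (Fin 3 → K) :=
  LinearMap.ker ((LinearMap.proj i : (Fin n → K) →ₗ[K] K).comp (Matrix.mulVecLin A))

lemma mem_plane (A : Matrix (Fin n) (Fin 3) K) (i : Fin n) (x : Fin 3 → K) :
    x ∈ plane A i ↔ dt (A i) x = 0 := by
  simp [plane, dt, Matrix.mulVec, dotProduct, Fin.sum_univ_three]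

lemma par_cr {a b x : Fin 3 → K} (ha : dt a x = 0) (hb : dt b x = 0) (c : Fin 3 → K)
    (k : Fin 3) : dt c x * cr a b k = x k * d3 c a b := by
  simp only [dt] at ha hb
  fin_cases k
  · simp only [dt, cr, d3, Fin.zero_eta, Matrix.cons_val]
    linear_combination (c 1 * b 2 - c 2 * b 1) * ha + (c 2 * a 1 - c 1 * a 2) * hb
  · simp only [dt, cr, d3, Fin.mk_one, Matrix.cons_val]
    linear_combination (c 2 * b 0 - c 0 * b 2) * ha + (c 0 * a 2 - c 2 * a 0) * hb
  · simp only [dt, cr, d3, Fin.reduceFinMk, Matrix.cons_val]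
    linear_combination (c 0 * b 1 - c 1 * b 0) * ha + (c 1 * a 0 - c 0 * a 1) * hb

lemma dt_cr (c a b : Fin 3 → K) : dt c (cr a b) = d3 c a b := by
  simp only [dt, cr, d3, Matrix.cons_val]

/-- the combinatorial closure of a set of rows -/
def Clos (A : Matrix (Fin n) (Fin 3) K) (S : Finset (Fin n)) (j : Fin n) : Prop :=
  j ∈ S ∨ (∃ i ∈ S, ∃ i' ∈ S, i ≠ i' ∧ d3 (A j) (A i) (A i') = 0) ∨
    ∃ i ∈ S, ∃ i' ∈ S, ∃ i'' ∈ S, d3 (A i'') (A i) (A i') ≠ 0

lemma le_iff_clos {A : Matrix (Fin n) (Fin 3) K} (hA : Good A) (S : Finset (Fin n)) (j : Fin n) :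
    (⨅ i ∈ S, plane A i) ≤ plane A j ↔ Clos A S j := by
  constructor
  · intro h
    by_contra hcon
    simp only [Clos, not_or, not_exists, not_and, not_not] at hcon
    obtain ⟨hj, h2, h3⟩ := hcon
    have key : ∀ x : Fin 3 → K, (∀ i ∈ S, dt (A i) x = 0) → dt (A j) x = 0 := by
      intro x hx
      rw [← mem_plane]
      apply h
      simp only [Submodule.mem_iInf, mem_plane]
      exact hx
    by_cases hS : ∃ i ∈ S, ∃ i' ∈ S, i ≠ i'
    · obtain ⟨i, hi, i', hi', hne⟩ := hS
      apply h2 i hi i' hi' hne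
      rw [← dt_cr]
      apply key
      intro i'' hi''
      rw [dt_cr]
      exact h3 i hi i' hi' i'' hi''
    · push Not at hS
      by_cases hS1 : ∃ i, i ∈ S
      · obtain ⟨i, hi⟩ := hS1
        obtain ⟨k, hk⟩ := hA.2 i j (by rintro rfl; exact hj hi)
        have h4 := key (cr (A i) (Pi.single k 1)) (by
          intro i' hi'
          rw [← hS i hi i' hi']
          simp only [dt, cr, Matrix.cons_val]; ring)
        apply hk
        rw [← neg_eq_zero, ← h4]
        fin_cases k <;> simp [dt, cr] <;> ring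
      · push Not at hS1
        apply hA.1 j
        funext k
        have h4 := key (Pi.single k 1) fun i hi => absurd hi (hS1 i)
        fin_cases k <;> simpa [dt] using h4
  · rintro (hj | ⟨i, hi, i', hi', hne, h0⟩ | ⟨i, hi, i', hi', i'', hi'', h0⟩)
    · exact iInf₂_le j hj
    · intro x hx
      simp only [Submodule.mem_iInf, mem_plane] at hx
      rw [mem_plane]
      obtain ⟨k, hk⟩ := hA.2 i i' hne
      apply mul_right_cancel₀ hk
      rw [par_cr (hx i hi) (hx i' hi'), h0, mul_zero, zero_mul]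
    · intro x hx
      simp only [Submodule.mem_iInf, mem_plane] at hx
      rw [mem_plane]
      have hx0 : ∀ k, x k = 0 := by
        intro k
        apply mul_right_cancel₀ h0
        rw [← par_cr (hx i hi) (hx i' hi'), hx i'' hi'', zero_mul, zero_mul]
      simp [dt, hx0]

theorem latt_iso {A B : Matrix (Fin n) (Fin 3) K} (hA : Good A) (hB : Good B)
    (hAB : ∀ i j k, d3 (A i) (A j) (A k) = 0 ↔ d3 (B i) (B j) (B k) = 0) :
    Nonempty (↥(Set.range (fun s : Finset (Fin n) => ⨅ i ∈ s, plane A i)) ≃o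
      ↥(Set.range (fun s : Finset (Fin n) => ⨅ i ∈ s, plane B i))) := by
  have h : ∀ (S : Finset (Fin n)) j, (⨅ i ∈ S, plane A i) ≤ plane A j ↔
      (⨅ i ∈ S, plane B i) ≤ plane B j := by
    intro S j
    rw [le_iff_clos hA, le_iff_clos hB]
    simp only [Clos, ne_eq, hAB]
  have hle : ∀ S T : Finset (Fin n), (⨅ i ∈ S, plane A i) ≤ (⨅ i ∈ T, plane A i) ↔
      (⨅ i ∈ S, plane B i) ≤ (⨅ i ∈ T, plane B i) := by
    intro S T
    simp only [le_iInf_iff]
    exact forall₂_congr fun j _ => h S j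
  let toF : ↥(Set.range (fun s : Finset (Fin n) => ⨅ i ∈ s, plane A i)) →
      ↥(Set.range (fun s : Finset (Fin n) => ⨅ i ∈ s, plane B i)) :=
    fun W => ⟨⨅ i ∈ W.2.choose, plane B i, _, rfl⟩
  let inF : ↥(Set.range (fun s : Finset (Fin n) => ⨅ i ∈ s, plane B i)) →
      ↥(Set.range (fun s : Finset (Fin n) => ⨅ i ∈ s, plane A i)) :=
    fun W => ⟨⨅ i ∈ W.2.choose, plane A i, _, rfl⟩
  have hmono : ∀ W W', toF W ≤ toF W' ↔ W ≤ W' := by
    intro W W'
    have h1 : (⨅ i ∈ W.2.choose, plane A i) = W := W.2.choose_spec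
    have h2 : (⨅ i ∈ W'.2.choose, plane A i) = W' := W'.2.choose_spec
    rw [← Subtype.coe_le_coe, ← Subtype.coe_le_coe, ← hle, h1, h2]
  refine ⟨⟨⟨toF, inF, ?_, ?_⟩, fun {a b} => hmono a b⟩⟩
  · intro W
    apply Subtype.ext
    change (⨅ i ∈ (toF W).2.choose, plane A i) = W
    have h1 : (⨅ i ∈ (toF W).2.choose, plane B i) = toF W := (toF W).2.choose_spec
    have h2 : (⨅ i ∈ W.2.choose, plane A i) = W := W.2.choose_spec
    rw [← h2]
    apply le_antisymm
    · rw [hle, h1]
    · rw [hle, h1]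
  · intro W
    apply Subtype.ext
    change (⨅ i ∈ (inF W).2.choose, plane B i) = W
    have h1 : (⨅ i ∈ (inF W).2.choose, plane A i) = inF W := (inF W).2.choose_spec
    have h2 : (⨅ i ∈ W.2.choose, plane B i) = W := W.2.choose_spec
    rw [← h2]
    apply le_antisymm
    · rw [← hle, h1]
    · rw [← hle, h1]

open MvPolynomial in
lemma mem_log (A : Matrix (Fin n) (Fin 3) K) (θ : Fin 3 → SS K) :
    θ ∈ Submodule.comap (Matrix.mulVecLin (A.map MvPolynomial.C))
          (Submodule.pi Set.univ (fun i : Fin n =>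
            (Ideal.span {(Matrix.mulVec (A.map MvPolynomial.C)
                (fun j => (MvPolynomial.X j : MvPolynomial (Fin 3) K))) i} :
              Submodule (MvPolynomial (Fin 3) K) (MvPolynomial (Fin 3) K)))) ↔ IsLog A θ := by
  simp only [Submodule.mem_comap, Submodule.mem_pi, Set.mem_univ, forall_const, IsLog,
    Matrix.mulVecLin_apply]
  refine forall_congr' fun i => ?_
  rw [Ideal.mem_span_singleton]
  simp only [lin, app, Matrix.mulVec, dotProduct, Fin.sum_univ_three, Matrix.map_apply]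

lemma Good.ne_smul {A : Matrix (Fin n) (Fin 3) K} (hA : Good A) (i j : Fin n) (h : i ≠ j)
    (c : K) : A i ≠ c • A j := by
  intro he
  obtain ⟨k, hk⟩ := hA.2 i j h
  apply hk
  rw [he]
  fin_cases k <;> simp [cr] <;> ring

end

end Pool.Agent.H233Z.Terao
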